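import Mathlib
import Pool.Agent.HDisc.Defs
import Pool.Agent.HDisc.Asymp

/-!
# The hypergraph discrepancy Ramsey function has at most one jump, at `α = 0` (Erdős)

For all `t ≥ 2` and all fixed `0 < α < 1/2` the function `F^(t)(n, α)` has order of magnitude
`(log n) ^ (1 / (t - 1))`; for `t ≥ 4` the order at `α = 0` is strictly smaller.

Idea of the lower bound: `n = d N` points with `N = 2 ^ (A s ^ (t-1))` are split into `d` classes.
Counting arrays of `d * 2s` points by the colour pattern of their transversals, and Hölder's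
inequality one row at a time, give disjoint `s`-sets `Q 0, ..., Q (d-1)`, such that the colour of a
transversal `t`-set depends only on the classes it meets. Ramsey's theorem then selects many classes
whose transversal `t`-sets all have one colour. The upper bound is a random colouring. The case
`α = 0`, `t ≥ 4` is the stepping-up construction.
-/

set_option autoImplicit false

namespace Pool.Agent.Results.MP_cdf3db_co.OnlyJumpAtZero

open Filter Asymptotics Pool.Agent.HDisc

/-- For every `t ≥ 2` and every fixed `0 < α < 1/2`, `F^(t)(n, α) = Θ((log n) ^ (1 / (t - 1)))`, and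
for every `t ≥ 4`, `F^(t)(n, 0) = o((log n) ^ (1 / (t - 1)))`. -/
theorem result :
    (∀ t : ℕ, 2 ≤ t → ∀ α : ℝ, 0 < α → α < 1 / 2 →
      (fun n : ℕ => (F t n α : ℝ)) =Θ[atTop]
        (fun n : ℕ => (Real.log n) ^ ((1 : ℝ) / ((t : ℝ) - 1)))) ∧
    (∀ t : ℕ, 4 ≤ t →
      (fun n : ℕ => (F t n 0 : ℝ)) =o[atTop]
        (fun n : ℕ => (Real.log n) ^ ((1 : ℝ) / ((t : ℝ) - 1)))) :=
  ⟨fun _ ht _ hα hα' => theta ht hα hα', fun _ ht => ramsey_isLittleO ht⟩

end Pool.Agent.Results.MP_cdf3db_co.OnlyJumpAtZero
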